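import Pool.Agent.H33.CritCount

set_option autoImplicit false

namespace Pool.Agent.Results.MP_45c08a_co.AllLengthsOneBigVertex

/-- Let `G` be a degree 3-critical graph on `n` vertices (so `2n - 2` edges, and no proper induced
subgraph has minimum degree at least 3), and suppose that all vertices of `G`, except possibly one
vertex `w`, have degree at most `d`, where `d ≥ 3`. Then `G` contains a cycle of length `ℓ` for every
`ℓ ≥ 3` with `2 * d ^ (ℓ - 3) ≤ n`. -/
theorem result :
    ∀ (V : Type) [Fintype V] (G : SimpleGraph V) (w : V) (d : ℕ),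
      G.edgeSet.ncard = 2 * Fintype.card V - 2 →
      (∀ S : Set V, S.Nonempty → S ≠ Set.univ →
        ∃ v ∈ S, {u : V | u ∈ S ∧ G.Adj v u}.ncard < 3) →
      3 ≤ d → (∀ v : V, v ≠ w → (G.neighborSet v).ncard ≤ d) →
      ∀ ℓ : ℕ, 3 ≤ ℓ → 2 * d ^ (ℓ - 3) ≤ Fintype.card V →
        ∃ (u : V) (c : G.Walk u u), c.IsCycle ∧ c.length = ℓ := by
  intro V _ G w d h1 h2 h3 h4 ℓ h5 h6
  exact Pool.Agent.H33.Crit.all_lengths G w d h1 h2 h3 h4 ℓ h5 h6

end Pool.Agent.Results.MP_45c08a_co.AllLengthsOneBigVertex
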